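import Pool.Agent.helper88.RQ2.Spec

/-!
# Row ECI of project RQ: the circuits of a direct sum
-/

open Set Matroid RadonMin

namespace RadonQ2

/-- The sets of circuits of `affMat A` are finite. -/
theorem ECI_finite {V : Type*} [AddCommGroup V] [Module ℝ V] [DecidableEq V] (A : Finset V) :
    {C : Set V | (affMat A).IsCircuit C}.Finite :=
  (Finset.finite_toSet A).finite_subsets.subset (fun _ hC => IsCircuit.subset_ground hC)

theorem ECI_proof (hEB : EB_stmt) : ECI_stmt := by
  intro V _ _ _ X A hAX h
  obtain ⟨h1, -⟩ := hEB V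
  have hB : X \ A ⊆ X := Finset.sdiff_subset
  have hAE : (A : Set V) ⊆ (affMat X).E := by rw [affMat_E]; exact_mod_cast hAX
  have hBX : ((X \ A : Finset V) : Set V) ⊆ (affMat X).E := by
    rw [affMat_E]; exact_mod_cast hB
  have hBE : (affMat X).E \ (A : Set V) = ((X \ A : Finset V) : Set V) := by
    rw [affMat_E, Finset.coe_sdiff]
  have hrk : rk (affMat X) (A : Set V) + rk (affMat X) ((affMat X).E \ (A : Set V))
      ≤ rk (affMat X) (affMat X).E := by
    rw [hBE, h1 A X hAX, h1 (X \ A) X hB, affMat_E, h1 X X (Finset.Subset.refl X), h]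
  have hset : {C : Set V | (affMat X).IsCircuit C} =
      {C : Set V | (affMat A).IsCircuit C} ∪ {C : Set V | (affMat (X \ A)).IsCircuit C} := by
    ext C
    simp only [Set.mem_ofPred_eq, mem_union]
    rw [← affMat_restrict X hAX, ← affMat_restrict X hB, restrict_isCircuit_iff hAE,
      restrict_isCircuit_iff hBX]
    constructor
    · intro hC
      rcases subset_or_subset_of_rk hAE hrk hC with h' | h'
      · exact Or.inl ⟨hC, h'⟩
      · rw [hBE] at h'
        exact Or.inr ⟨hC, h'⟩
    · rintro (h' | h')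
      · exact h'.1
      · exact h'.1
  unfold ci cc
  rw [hset]
  refine ncard_union_eq ?_ (ECI_finite A) (ECI_finite (X \ A))
  rw [Set.disjoint_left]
  intro C hC hC'
  have h2 : C ⊆ (A : Set V) := IsCircuit.subset_ground hC
  have h3 : C ⊆ ((X \ A : Finset V) : Set V) := IsCircuit.subset_ground hC'
  obtain ⟨x, hx⟩ := IsCircuit.nonempty hC
  have h4 := h3 hx
  rw [Finset.coe_sdiff] at h4
  exact h4.2 (h2 hx)

end RadonQ2
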